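import Mathlib
import Pool.Agent.H63.OB.Defs
import Pool.Agent.H34.Reg.Main

/-!
When the bound `3 ^ d` holds for partitions of `[n]^d` into odd proper boxes.
-/

set_option autoImplicit false

namespace Pool.Agent.Results.MP_8c362f_co.CubeBound

open Pool.Agent.H63.OB Pool.Agent.H34.Reg

/-- Let `P` be a partition of `[n]^d`, `n` odd, into odd proper boxes, and let `w` be a product
weight on the points whose factors are odd positive integers. If `q` times the weighted average
number of boxes meeting the slice through a point with the coordinates in `I` fixed is an integer,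
for every set `I` of coordinates, then `q * |P| ≥ 3 ^ d`. -/
theorem result :
    ∀ n d : ℕ, Odd n → ∀ P : Finset (Box n d), IsOddProperPartition P →
      ∀ w : Fin d → Fin n → ℕ, (∀ i y, Odd (w i y)) → ∀ q : ℕ, 0 < q →
        (∀ I : Finset (Fin d), (∏ i, ∑ y, w i y) ∣
          q * ∑ x : Fin d → Fin n, (∏ i, w i (x i)) * sliceCount P I x) →
        3 ^ d ≤ q * P.card :=
  fun _ _ hn P hP w hw q hq h => main hn P hP w hw q hq h

end Pool.Agent.Results.MP_8c362f_co.CubeBound
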