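import Mathlib
import Pool.Agent.H63.OB.Defs
import Pool.Agent.H79.OB.Eight
import Pool.Agent.H79.OB.Ex25

/-!
Partitions of `[n]^d` into odd proper boxes with few different sides in each coordinate.
-/

set_option autoImplicit false

namespace Pool.Agent.Results.MP_8c362f_co.EightSides

open Pool.Agent.H63.OB

/-- If at most eight different sets occur as `i`-th sides, for every `i` in a set `K` of coordinates, then a partition of
`[n]^d`, `n` odd, into odd proper boxes has at least `3 ^ |K| * (2 ^ (d - |K| + 1) - 1)` boxes, so at least `3 ^ d` if `K`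
is the set of all coordinates. Eight cannot be replaced by nine: there is a partition of `[5]^3` into 25 (fewer than
`3 ^ 2 * (2 ^ 2 - 1)`) odd proper boxes with at most nine different sides in two coordinates and at most ten in the
third. -/
theorem result :
    (∀ n d : ℕ, Odd n → ∀ P : Finset (Box n d), IsOddProperPartition P → ∀ K : Finset (Fin d),
      (∀ i ∈ K, (P.image (fun b => b i)).card ≤ 8) →
      3 ^ K.card * (2 ^ (d - K.card + 1) - 1) ≤ P.card) ∧
    ∃ P : Finset (Box 5 3), IsOddProperPartition P ∧ P.card = 25 ∧
      (∀ i, i ≠ 2 → (P.image (fun b => b i)).card ≤ 9) ∧ (P.image (fun b => b 2)).card ≤ 10 :=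
  ⟨fun _ _ hn P hP K hK => Pool.Agent.H79.OB.eight_sides hn P hP K hK, Pool.Agent.H79.OB.exists_25⟩

end Pool.Agent.Results.MP_8c362f_co.EightSides
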