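import Mathlib
import Pool.Agent.H34.OC.Defs
import Pool.Agent.H34.OC.Main

/-!
The parity relaxation of the problem of partitioning `[n]^d` into few odd proper boxes: the least
number of odd proper boxes that cover every point of `[n]^d` an odd number of times.
-/

set_option autoImplicit false

namespace Pool.Agent.Results.MP_8c362f_co.OddCovers

open PoolH34OC

/-- Let `n ≥ 3` be odd and `d ≥ 0`. The least number of odd proper boxes covering every point of
`[n]^d` an odd number of times is at least `2 ^ (d + 1) - 1`, and it is at most `2 ^ (d + k) - 1`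
for every `k ≥ 1` with `d ≤ k (n - 2)`; in particular it is `2 ^ (d + 1) - 1` if `d ≤ n - 2`. -/
theorem result : ∀ n d : ℕ, Odd n → 3 ≤ n →
    2 ^ (d + 1) - 1 ≤ oddCoverNumber n d ∧
      ∀ k : ℕ, 1 ≤ k → d ≤ k * (n - 2) → oddCoverNumber n d ≤ 2 ^ (d + k) - 1 := by
  intro n d hn h3
  obtain ⟨h1, h2⟩ := main (d := d) hn h3
  refine ⟨h1, fun k hk hd => ?_⟩
  obtain ⟨m, rfl⟩ : ∃ m, k = m + 1 := ⟨k - 1, by omega⟩
  exact h2 m hd

end Pool.Agent.Results.MP_8c362f_co.OddCovers
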