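import Mathlib
import Pool.Agent.H63.OB.Defs
import Pool.Agent.H79.OB.Master

/-!
Partitions of `[n]^d` into odd proper boxes: an inequality for the traces of the sides on given sets.
-/

set_option autoImplicit false

namespace Pool.Agent.Results.MP_8c362f_co.TraceInequality

open Pool.Agent.H63.OB

/-- Let `n` be odd, `P` a partition of `[n]^d` into odd proper boxes, `K` a set of coordinates; for `i ∈ K` let
`F i` be a family of proper subsets of `A i ⊆ [n]`. Then the sum over the boxes `b` of the products of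
`(1 - 1 / |F i|) / 2` over the `i ∈ K` with `b i ∩ A i ∈ F i` is at least `2 ^ (d - |K| + 1) - 1`. In particular
`|P| ≥ (2 + 2 / (r - 1)) ^ (|K| - m) * (2 ^ (d - |K| + 1) - 1)` if all `|F i| ≤ r` and for every box at most `m`
indices `i ∈ K` have `b i ∩ A i ∉ F i`. -/
theorem result (n d : ℕ) (hn : Odd n) (P : Finset (Box n d)) (hP : IsOddProperPartition P)
    (K : Finset (Fin d)) (A : Fin d → Finset (Fin n)) (F : Fin d → Finset (Finset (Fin n)))
    (hF : ∀ i ∈ K, ∀ T ∈ F i, T ⊂ A i) :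
    (2 : ℝ) ^ (d - K.card + 1) - 1 ≤
        ∑ b ∈ P, ∏ i ∈ K, (if b i ∩ A i ∈ F i then (1 - 1 / ((F i).card : ℝ)) / 2 else 1) ∧
      ∀ r m : ℕ, 2 ≤ r → (∀ i ∈ K, (F i).card ≤ r) →
        (∀ b ∈ P, (K.filter (fun i => b i ∩ A i ∉ F i)).card ≤ m) →
        (2 + 2 / ((r : ℝ) - 1)) ^ (K.card - m) * (2 ^ (d - K.card + 1) - 1) ≤ P.card :=
  ⟨Pool.Agent.H79.OB.trace_ineq hn P hP K A F hF,
    fun r m hr hFr hm => Pool.Agent.H79.OB.trace_card hn P hP K A F hF r m hr hFr hm⟩

end Pool.Agent.Results.MP_8c362f_co.TraceInequality
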